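import Mathlib

namespace Pool.Agent.H76En

open Real Finset

variable {V : Type} [DecidableEq V]

/-- The points of the pyramid. -/
noncomputable def pt (n : ℕ) (α β : ℝ) : Option (Fin n) → EuclideanSpace ℝ (Fin n)
  | none => WithLp.toLp 2 (fun _ => α)
  | some i => WithLp.toLp 2 (fun j => if j = i then β else 0)

theorem pt_aff {n : ℕ} {α β : ℝ} (h : (n : ℝ) * α ≠ β) (hβ : β ≠ 0) :
    AffineIndependent ℝ (pt n α β) := by
  rw [affineIndependent_iff_of_fintype]
  intro w hw h0
  rw [Finset.weightedVSub_eq_linear_combination _ hw] at h0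
  rw [Fintype.sum_option] at hw h0
  have hc : ∀ j : Fin n, w none * α + w (some j) * β = 0 := by
    intro j
    have h1 := congrArg (fun v : EuclideanSpace ℝ (Fin n) => v j) h0
    simp only [pt, PiLp.add_apply, PiLp.smul_apply, PiLp.zero_apply, smul_eq_mul] at h1
    rw [← h1]
    congr 1
    have h2 : (∑ i : Fin n, w (some i) • (WithLp.toLp 2 (fun j => if j = i then β else 0) :
        EuclideanSpace ℝ (Fin n))) j = ∑ i : Fin n, w (some i) * (if j = i then β else 0) := by
      simp [Finset.sum_apply]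
    rw [h2]
    simp
  have hs : (∑ j : Fin n, w (some j)) * β = - (n * α * w none) := by
    rw [Finset.sum_mul]
    have : ∀ j : Fin n, w (some j) * β = - (α * w none) := fun j => by linarith [hc j]
    rw [Finset.sum_congr rfl (fun j _ => this j), Finset.sum_const, Finset.card_univ,
      Fintype.card_fin, nsmul_eq_mul]
    ring
  have hn : w none = 0 := by
    have h3 : w none * ((n : ℝ) * α - β) = 0 := by
      have : (∑ j : Fin n, w (some j)) = - w none := by linarith
      rw [this] at hs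
      linarith
    rcases mul_eq_zero.1 h3 with h4 | h4
    · exact h4
    · exact absurd (sub_eq_zero.1 h4) h
  intro i
  cases i with
  | none => exact hn
  | some j =>
    have := hc j
    rw [hn, zero_mul, zero_add] at this
    exact (mul_eq_zero.1 this).resolve_right hβ

theorem dist_base {n : ℕ} {α β : ℝ} {i j : Fin n} (hij : i ≠ j) :
    dist (pt n α β (some i)) (pt n α β (some j)) ^ 2 = 2 * β ^ 2 := by
  rw [EuclideanSpace.dist_eq, Real.sq_sqrt (Finset.sum_nonneg fun _ _ => sq_nonneg _)]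
  simp only [pt, Real.dist_eq, sq_abs]
  have h : ∀ k : Fin n, ((if k = i then β else 0) - (if k = j then β else 0)) ^ 2 =
      (if k = i then β ^ 2 else 0) + (if k = j then β ^ 2 else 0) := by
    intro k
    by_cases h1 : k = i
    · have h2 : k ≠ j := fun h2 => hij (h1.symm.trans h2)
      simp [h1, hij]
    · by_cases h2 : k = j
      · simp [h2, Ne.symm hij]
      · simp [h1, h2]
  rw [Finset.sum_congr rfl (fun k _ => h k), Finset.sum_add_distrib]
  simp
  ring

theorem dist_apex {n : ℕ} {α β : ℝ} (i : Fin n) :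
    dist (pt n α β none) (pt n α β (some i)) ^ 2 = n * α ^ 2 - 2 * α * β + β ^ 2 := by
  rw [EuclideanSpace.dist_eq, Real.sq_sqrt (Finset.sum_nonneg fun _ _ => sq_nonneg _)]
  simp only [pt, Real.dist_eq, sq_abs]
  have h : ∀ k : Fin n, (α - (if k = i then β else 0)) ^ 2 =
      α ^ 2 + (if k = i then β ^ 2 - 2 * α * β else 0) := by
    intro k
    by_cases h1 : k = i
    · simp [h1]; ring
    · simp [h1]
  rw [Finset.sum_congr rfl (fun k _ => h k), Finset.sum_add_distrib]
  simp
  ring

/-- G: realisation of the pyramid. -/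
theorem realise {z : Sym2 V → ℝ} {s : Finset V} {a : V} (ha : a ∈ s) {n : ℕ} (hm : #s = n + 1)
    (hn : 1 ≤ n) {t : ℝ} (ht : 0 < 1 / 2 + n * (t - 1 / 2))
    (h1 : ∀ x ∈ s, ∀ y ∈ s, x ≠ a → y ≠ a → x ≠ y → z s(x, y) = 1)
    (h2 : ∀ x ∈ s, x ≠ a → z s(a, x) = t) :
    ∃ p : s → EuclideanSpace ℝ (Fin n), AffineIndependent ℝ p ∧
      ∀ a b : s, a ≠ b → Dist.dist (p a) (p b) ^ 2 = z s(a.1, b.1) := by
  classical
  have hcard : Fintype.card s = Fintype.card (Option (Fin n)) := by
    rw [Fintype.card_coe, hm, Fintype.card_option, Fintype.card_fin]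
  let e0 : s ≃ Option (Fin n) := Fintype.equivOfCardEq hcard
  let e : s ≃ Option (Fin n) := e0.trans (Equiv.swap (e0 ⟨a, ha⟩) none)
  have hea : e ⟨a, ha⟩ = none := by simp [e]
  set β : ℝ := 1 / √2 with hβ
  set E : ℝ := 1 / 2 + n * (t - 1 / 2) with hE
  have hβ2 : β ^ 2 = 1 / 2 := by
    rw [hβ, div_pow, Real.sq_sqrt (by norm_num)]; norm_num
  have hβ0 : β ≠ 0 := by rw [hβ]; positivity
  set α : ℝ := (β + √E) / n with hα
  have hnR : (0 : ℝ) < n := by exact_mod_cast hn
  have hnα : (n : ℝ) * α = β + √E := by rw [hα]; field_simp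
  have hne : (n : ℝ) * α ≠ β := by
    rw [hnα]; have := Real.sqrt_pos.2 ht; intro h; linarith
  have hap : (n : ℝ) * α ^ 2 - 2 * α * β + β ^ 2 = t := by
    have h3 : (n : ℝ) * ((n : ℝ) * α ^ 2 - 2 * α * β + β ^ 2) = n * t := by
      have h4 : (n : ℝ) * ((n : ℝ) * α ^ 2 - 2 * α * β + β ^ 2) =
          ((n : ℝ) * α) ^ 2 - 2 * ((n : ℝ) * α) * β + n * β ^ 2 := by ring
      rw [h4, hnα, hβ2]
      have h5 : (β + √E) ^ 2 - 2 * (β + √E) * β + n * (1 / 2 : ℝ) = √E ^ 2 - β ^ 2 + n * (1 / 2) := by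
        ring
      rw [h5, Real.sq_sqrt ht.le, hβ2, hE]
      ring
    exact mul_left_cancel₀ hnR.ne' h3
  refine ⟨fun x => pt n α β (e x), (pt_aff hne hβ0).comp_embedding e.toEmbedding, ?_⟩
  have key : ∀ y : s, y.1 ≠ a → ∃ i, e y = some i := by
    intro y hy
    cases hc : e y with
    | none =>
      exfalso; apply hy
      have : y = ⟨a, ha⟩ := e.injective (hc.trans hea.symm)
      exact congrArg Subtype.val this
    | some i => exact ⟨i, rfl⟩
  intro x y hxy
  have hxy' : x.1 ≠ y.1 := fun h => hxy (Subtype.ext h)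
  by_cases hx : x.1 = a
  · have hx' : x = ⟨a, ha⟩ := Subtype.ext hx
    have hy : y.1 ≠ a := fun h => hxy' (hx.trans h.symm)
    obtain ⟨i, hi⟩ := key y hy
    simp only [hx', hea, hi]
    rw [dist_apex, hap, h2 y.1 y.2 hy]
  · obtain ⟨i, hi⟩ := key x hx
    by_cases hy : y.1 = a
    · have hy' : y = ⟨a, ha⟩ := Subtype.ext hy
      simp only [hy', hea, hi]
      rw [dist_comm, dist_apex, hap, Sym2.eq_swap, h2 x.1 x.2 hx]
    · obtain ⟨j, hj⟩ := key y hy
      simp only [hi, hj]
      have hij : i ≠ j := by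
        intro h; apply hxy; apply e.injective; rw [hi, hj, h]
      rw [dist_base hij, hβ2, h1 x.1 x.2 y.1 y.2 hx hy hxy']
      norm_num

end Pool.Agent.H76En
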